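import Mathlib
import Pool.Agent.Run7.h17.Fixed2

/-!
# Chowla's conjecture for pairs and for odd orders: all but boundedly many prime moduli up to the square root

The correlations of the Liouville function at FIXED linear forms, for two forms (with all linear phases) and
for an odd number of forms, outside of one set of scales `N` of logarithmic density zero: call a modulus `q`
bad if they are not small in almost all classes modulo `q`. A set of pairwise coprime bad moduli `q ≤ Q` has
at most `K (1 + Q ^ 2 / N)` members. In particular all prime moduli `p ≤ √N` with the exception of a bounded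
number of them are good, and so are all their powers up to `√N`.

Inputs from the starting files: the two point theorem of Tao and Teravainen at almost all scales in a form with
all linear phases (`Pool/Agent/Y842/PH`), and the theorem for odd orders (`Pool/Agent/N781/E`).

From Mathlib: `ArithmeticFunction.cardFactors m` is the number of the prime factors of `m` with multiplicity;
`Finset.Icc 1 N`: the integers from `1` to `N`; `Finset.range q`: the integers from `0` to `q - 1`.
-/

set_option autoImplicit false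

open Finset Filter

namespace Pool.Agent.Results.MP_4a7640_nt.FewCoprimeBadModuli

open Classical in
/-- `E` has logarithmic density zero -/
def LogDensityZero (E : Set ℕ) : Prop := Tendsto
  (fun X : ℕ => (∑ n ∈ Icc 1 X, if n ∈ E then (1 : ℝ) / n else 0) / Real.log X) atTop (nhds 0)

/-- Liouville's function -/
def lam (n : ℕ) : ℤ := (-1) ^ ArithmeticFunction.cardFactors n

/-- The `k` forms `a i n + b i` and the phase `γ` are admissible: `a i ≥ 1`, and either `k` is odd and
`γ = 0`, or `k = 2`, the two forms are not proportional and `γ` is any real number. -/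
def Admissible (k : ℕ) (a b : Fin k → ℕ) (γ : ℝ) : Prop :=
  (∀ i, 1 ≤ a i) ∧ ((Odd k ∧ γ = 0) ∨ (k = 2 ∧ ∀ i j, i ≠ j → a i * b j ≠ a j * b i))

/-- the sum of `e(γ n) ∏ i, λ(a i n + b i)` over the `n ≤ y` in the class of `c` modulo `q` -/
noncomputable def classSum (k : ℕ) (a b : Fin k → ℕ) (γ : ℝ) (q c y : ℕ) : ℂ :=
  ∑ n ∈ (Icc 1 y).filter (fun n => n % q = c),
    Complex.exp (2 * Real.pi * Complex.I * ((γ * n : ℝ) : ℂ)) * ∏ i, (lam (a i * n + b i) : ℂ)

/-- The modulus `q` is bad at the scale `N`: for suitable cut-offs `Y c ≤ N` the sum over the classes `c`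
modulo `q` of the absolute values of the sums over `n ≤ Y c`, `n ≡ c` modulo `q`, is larger than `ε N`. -/
def Bad (k : ℕ) (a b : Fin k → ℕ) (γ ε : ℝ) (N q : ℕ) : Prop :=
  ∃ Y : ℕ → ℕ, (∀ c, Y c ≤ N) ∧ ε * N < ∑ c ∈ range q, ‖classSum k a b γ q c (Y c)‖

lemma classSum_eq (k : ℕ) (a b : Fin k → ℕ) (γ : ℝ) (q c y : ℕ) :
    classSum k a b γ q c y = Pool.Agent.Run7.h17.BDH.cs (Pool.Agent.Run7.h17.Fx.fg k a b γ) q c y := by
  unfold classSum Pool.Agent.Run7.h17.BDH.cs
  rw [sum_filter]
  refine sum_congr rfl fun n _ => ?_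
  split_ifs
  · unfold Pool.Agent.Run7.h17.Fx.fg Pool.Agent.Run7.h17.Fx.ff Pool.Agent.Helper112.ee
    rw [mul_comm]
    congr 2
    push_cast
    ring
  · rfl

/-- There is one set `E` of scales of logarithmic density zero such that for all fixed systems of forms
`a i n + b i` and all `ε > 0` there is `K` such that for all `N ≥ K` outside of `E` and all admissible phases
`γ` (any real `γ` for two forms which are not proportional, `γ = 0` for an odd number of forms) the following
holds for all `Q ≤ N / K`: every set of pairwise coprime bad moduli `q ≤ Q` has at most `K (1 + Q ^ 2 / N)`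
members. -/
theorem result : ∃ E : Set ℕ, LogDensityZero E ∧ ∀ (k : ℕ) (a b : Fin k → ℕ) (ε : ℝ), 0 < ε →
    ∃ K : ℕ, ∀ N : ℕ, K ≤ N → N ∉ E → ∀ γ : ℝ, Admissible k a b γ → ∀ Q : ℕ, K * Q ≤ N →
      ∀ M : Finset ℕ, (∀ q ∈ M, 1 ≤ q ∧ q ≤ Q ∧ Bad k a b γ ε N q) →
      (∀ q ∈ M, ∀ q' ∈ M, q ≠ q' → Nat.Coprime q q') → (#M : ℝ) ≤ K * (1 + (Q : ℝ) ^ 2 / N) := by
  obtain ⟨E, hE, h1⟩ := Pool.Agent.Run7.h17.Fx.copr_main
  refine ⟨E, hE, fun k a b ε hε => ?_⟩
  obtain ⟨K, hK⟩ := h1 k a b ε hε
  refine ⟨K, fun N hN hNE γ hγ Q hQ M hM hc => ?_⟩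
  refine hK N hN hNE γ hγ Q hQ M (fun q hq => ⟨(hM q hq).1, (hM q hq).2.1⟩) hc (fun q hq => ?_)
  obtain ⟨Y, hY, hbad⟩ := (hM q hq).2.2
  simp only [classSum_eq] at hbad
  exact ⟨Y, hY, hbad⟩

end Pool.Agent.Results.MP_4a7640_nt.FewCoprimeBadModuli
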