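import Mathlib
import Pool.Agent.Run7.h17.PTVar

/-!
# Prime tuples in residue classes: an asymptotic formula for the mean square over all classes of all moduli `q ≤ Q`

The analogue of the theorem of Barban, Davenport, Halberstam, Montgomery and Hooley for the prime tuples
`α 1 n + h 1, ..., α k n + h k`: for almost all vectors of shifts `h i` from families of nearly minimal additive energy
(for example random integers, random elements of arbitrary sets of `N / log ^ C N` integers, random values of a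
polynomial), and with arbitrary weights `θ`, let `R(n) = θ(n) (∏ Λ(α i n + h i) - ∏ model(α i n + h i))`. Then the sum over
all `q ≤ Q` and all classes `b` modulo `q` of the squares of the sums of `R` over the class is
`Q ∑ R(n) ^ 2 + O(N ^ 2 / log ^ U N)`, for all `Q` and all lengths.

Used: the starting files `Pool.Agent.H373R2.T7` (sieve model and energies), `Pool.Agent.H560R3.GB` (von Mangoldt's
function along families of small energy) and the large sieve of `Pool.Agent.Helper112`. From Mathlib: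
`ArithmeticFunction.vonMangoldt` is von Mangoldt's function `Λ`; `Finset.Icc 1 x` are the integers from `1` to `x`,
`Finset.range q` those from `0` to `q - 1`.
-/

set_option autoImplicit false

namespace Pool.Agent.Results.MP_e87c7d_nt.MeanSquareOverClasses

open Finset

/-- The additive energy of order `p` of the family `s 1, ..., s x`: the number of solutions of
`s (v 1) + ... + s (v p) = s (w 1) + ... + s (w p)` with all `v i`, `w i` in `{1, ..., x}`. -/
def energy (p x : ℕ) (s : ℕ → ℕ) : ℕ :=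
  (((Fintype.piFinset fun _ : Fin p => Icc 1 x) ×ˢ (Fintype.piFinset fun _ : Fin p => Icc 1 x)).filter
    (fun q => ∑ i, s (q.1 i) = ∑ i, s (q.2 i))).card

/-- The family `s 1, ..., s x` lies in `[0, B N]`, and its additive energy of some order `p ≤ h` is at most
`log ^ C N` times `x ^ (2 p) / N`. -/
def Spread (h B C N x : ℕ) (s : ℕ → ℕ) : Prop :=
  (∀ m ∈ Icc 1 x, s m ≤ B * N) ∧
    ∃ p : ℕ, 1 ≤ p ∧ p ≤ h ∧ (energy p x s : ℝ) * N ≤ Real.log N ^ C * (x : ℝ) ^ (2 * p)

/-- The sieve model of von Mangoldt's function: the integers without prime factors up to `z` have the weight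
`∏_{p ≤ z} (1 - 1 / p)⁻¹`, the other integers the weight `0`. -/
noncomputable def model (z n : ℕ) : ℝ :=
  if ∀ p ∈ (Icc 1 z).filter Nat.Prime, ¬ p ∣ n then (∏ p ∈ (Icc 1 z).filter Nat.Prime, (1 - 1 / (p : ℝ)))⁻¹ else 0

/-- `R(n) = θ(n) (∏_i Λ(α i n + s i) - ∏_i model(α i n + s i))`. -/
noncomputable def R {k : ℕ} (z : ℕ) (θ : ℕ → ℝ) (α s : Fin k → ℕ) (n : ℕ) : ℝ :=
  θ n * (∏ i, ArithmeticFunction.vonMangoldt (α i * n + s i) - ∏ i, model z (α i * n + s i))

/-- For all lengths `X` with `α i X ≤ B N` and all `Q`: the sum over the moduli `q ≤ Q` and the classes `b` modulo `q` of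
the squares of the sums of `R` over the `n ≤ X` in the class is `Q ∑_{n ≤ X} R(n) ^ 2`, up to at most `N ^ 2 / log ^ U N`. -/
def MeanSquare (B U N z : ℕ) {k : ℕ} (θ : ℕ → ℝ) (α s : Fin k → ℕ) : Prop :=
  ∀ X : ℕ, (∀ i, α i * X ≤ B * N) → ∀ Q : ℕ,
    |∑ q ∈ Icc 1 Q, ∑ b ∈ range q, (∑ n ∈ (Icc 1 X).filter (fun n => n % q = b), R z θ α s n) ^ 2 -
      Q * ∑ n ∈ Icc 1 X, R z θ α s n ^ 2| ≤ (N : ℝ) ^ 2 / Real.log N ^ U

lemma energy_eq (h x : ℕ) (s : ℕ → ℕ) :
    Pool.Agent.H373R2.T7.energy h x (fun m => (s m : ℤ)) = energy h x s := by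
  unfold energy Pool.Agent.H373R2.T7.energy
  congr 1
  apply filter_congr
  intro q _
  change (∑ i, ((s (q.1 i) : ℕ) : ℤ) = ∑ i, ((s (q.2 i) : ℕ) : ℤ)) ↔ _
  constructor
  · intro h; exact_mod_cast h
  · intro h; exact_mod_cast h

lemma spread_energy (h B C N x : ℕ) (s : ℕ → ℕ) (hs : Spread h B C N x s) :
    (Pool.Agent.H373R2.T7.energy h x (fun m => (s m : ℤ)) : ℝ) * N ≤ Real.log N ^ C * (x : ℝ) ^ (2 * h) := by
  obtain ⟨_, p, _, hp, hE⟩ := hs
  rw [← energy_eq] at hE
  exact Run7.h223.LE.spread_mono C p h x N hp _ hE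

lemma df_eq {k : ℕ} (z : ℕ) (α s : Fin k → ℕ) (hα : ∀ i, 1 ≤ α i) (n : ℕ) (hn : 1 ≤ n) :
    Pool.Agent.Run7.h17.PT.df z (fun i => (α i : ℤ)) (fun i => (s i : ℤ)) n =
      ∏ i, ArithmeticFunction.vonMangoldt (α i * n + s i) - ∏ i, model z (α i * n + s i) := by
  unfold Pool.Agent.Run7.h17.PT.df
  have e : ∀ i, (α i : ℤ) * (n : ℤ) + (s i : ℤ) = ((α i * n + s i : ℕ) : ℤ) := fun i => by push_cast; rfl
  have h1 : ∀ i, (1 : ℤ) ≤ ((α i * n + s i : ℕ) : ℤ) := fun i => by
    have := Nat.mul_pos (hα i) hn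
    exact_mod_cast (by omega : 1 ≤ α i * n + s i)
  congr 1
  · refine prod_congr rfl fun i _ => ?_
    rw [e i]
    unfold Pool.Agent.H373R2.T7.lamI
    rw [if_pos (h1 i), Int.toNat_natCast]
  · refine prod_congr rfl fun i _ => ?_
    rw [e i]
    unfold Pool.Agent.H373R2.T7.lamzI
    rw [if_pos (h1 i), Int.toNat_natCast]
    rfl

open Classical in
/-- Let `k ≥ 1` and `h, B, C, κ, U` be fixed. There is `B₀` such that for all `E` and all large `N` the following
holds for all families `s i 1, ..., s i (x i)`, `i < k`, of integers in `[0, B N]` whose additive energy of some order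
`≤ h` is minimal up to the factor `log ^ C N`, all multipliers `α i ≥ 1`, all `z` between `log ^ B₀ N` and `log ^ E N`, and
all families of at most `log ^ κ N` weights `θ l`, bounded by `log ^ κ N` on `[1, B N]`. For all vectors `(s i (m i))_i`
of members of the families but at most the proportion `1 / log ^ U N` of them, for all `l`, the asymptotic formula
`MeanSquare` for the mean square over the classes holds, for all lengths and all `Q`. -/
theorem result (k h B C κ U : ℕ) (hk : 1 ≤ k) : ∃ B₀ : ℕ, ∀ E : ℕ, ∃ N₀ : ℕ, ∀ N : ℕ, N₀ ≤ N →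
    ∀ (x : Fin k → ℕ) (s : Fin k → ℕ → ℕ), (∀ i, Spread h B C N (x i) (s i)) →
    ∀ α : Fin k → ℕ, (∀ i, 1 ≤ α i) → ∀ z : ℕ, Real.log N ^ B₀ ≤ z → (z : ℝ) ≤ Real.log N ^ E →
    ∀ L : ℕ, (L : ℝ) ≤ Real.log N ^ κ → ∀ θ : Fin L → ℕ → ℝ,
    (∀ l n, 1 ≤ n → n ≤ B * N → |θ l n| ≤ Real.log N ^ κ) →
    (((Fintype.piFinset (fun i => Icc 1 (x i))).filter (fun m : Fin k → ℕ =>
      ¬ ∀ l, MeanSquare B U N z (θ l) α (fun i => s i (m i)))).card : ℝ) ≤
      (∏ i, (x i : ℝ)) / Real.log N ^ U := by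
  obtain ⟨B0, hB0⟩ := Pool.Agent.Run7.h17.PT.tuple_var k h B C κ U hk
  refine ⟨B0, fun E => ?_⟩
  obtain ⟨N0, h1⟩ := hB0 E
  refine ⟨N0, fun N hN x s hs α hα z hz1 hz2 L hL θ hθ => ?_⟩
  have key := h1 N hN x (fun i m => (s i m : ℤ)) (fun i m hm => by
      rw [Nat.abs_cast]
      exact_mod_cast (hs i).1 m hm) (fun i => spread_energy h B C N (x i) (s i) (hs i)) (fun i => (α i : ℤ))
    (fun i => by have := hα i; omega) z hz1 hz2 L hL θ (fun l n hn h2 => hθ l n hn (by
      have h3 := h2 ⟨0, hk⟩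
      rw [Int.natAbs_natCast] at h3
      exact (Nat.le_mul_of_pos_left _ (hα _)).trans h3))
  refine le_trans (Nat.cast_le.mpr (card_le_card ?_)) key
  intro m hm
  rw [mem_filter] at hm ⊢
  refine ⟨hm.1, fun hgood => hm.2 ?_⟩
  intro l X hX Q
  have h5 := hgood l X (fun i => by
    rw [Int.natAbs_natCast]
    exact hX i) Q
  have e1 : ∀ n ∈ Icc 1 X, θ l n * Pool.Agent.Run7.h17.PT.df z (fun i => (α i : ℤ)) (fun i => (s i (m i) : ℤ)) n =
      R z (θ l) α (fun i => s i (m i)) n := by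
    intro n hn
    rw [mem_Icc] at hn
    unfold R
    rw [df_eq z α (fun i => s i (m i)) hα n hn.1]
  have e2 : ∑ n ∈ Icc 1 X, (θ l n * Pool.Agent.Run7.h17.PT.df z (fun i => (α i : ℤ)) (fun i => (s i (m i) : ℤ)) n) ^ 2 =
      ∑ n ∈ Icc 1 X, R z (θ l) α (fun i => s i (m i)) n ^ 2 := sum_congr rfl fun n hn => by rw [e1 n hn]
  have e3 : ∀ q b, (∑ n ∈ Icc 1 X, if n % q = b then
      θ l n * Pool.Agent.Run7.h17.PT.df z (fun i => (α i : ℤ)) (fun i => (s i (m i) : ℤ)) n else 0) =
      ∑ n ∈ (Icc 1 X).filter (fun n => n % q = b), R z (θ l) α (fun i => s i (m i)) n := by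
    intro q b
    rw [sum_filter]
    refine sum_congr rfl fun n hn => ?_
    rw [e1 n hn]
  rw [e2, sum_congr rfl fun q _ => sum_congr rfl fun b _ => by rw [e3 q b]] at h5
  exact h5

end Pool.Agent.Results.MP_e87c7d_nt.MeanSquareOverClasses
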